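import Mathlib

/-!
# A compact linearly ordered space without the Blumberg property, in ZFC

Let `S` be a set of countable ordinals which is stationary and co-stationary. The points of the
space are the subsets `c` of `S` such that each limit point of `c` either belongs to `c`, or lies
outside of `S` and is above all elements of `c`. They are ordered lexicographically. This is a
complete linear order, its points are bounded subsets of the set of countable ordinals, and as `S` is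
stationary the intersection of countably many dense open sets has dense interior. So the space is a
union of `ℵ₁` nowhere dense sets, and for every sequence of open sets there is a nonempty open set
which is contained in, or disjoint from, each member of the sequence.
-/

set_option autoImplicit false

open Set Topology Cardinal Ordinal

namespace Pool.Agent.Results.MP_184855_gt.StationaryTree

/-- The Blumberg property: every real-valued function on `X` has a continuous restriction to some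
dense subspace. -/
def Blumberg (X : Type) [TopologicalSpace X] : Prop :=
  ∀ f : X → ℝ, ∃ D : Set X, Dense D ∧ Continuous (fun x : D => f x)

/-! ### Countable ordinals -/

/-- The set of countable ordinals. -/
abbrev W : Type := (ℵ₁ : Cardinal.{0}).ord.ToType

theorem mk_W : #W = ℵ₁ := by simp [W]

theorem countable_Iio (a : W) : (Iio a).Countable := by
  rw [← Cardinal.le_aleph0_iff_set_countable, ← Cardinal.lt_aleph_one_iff]
  have := Cardinal.mk_Iio_lt a (by simp [W])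
  simpa [W] using this

theorem not_countable : ¬ Countable W := by
  rw [← Cardinal.mk_le_aleph0_iff, mk_W]
  exact not_le.2 aleph0_lt_aleph_one

theorem countable_Iic (a : W) : (Iic a).Countable := by
  rw [← Iio_insert]
  exact (countable_Iio a).insert a

theorem exists_gt {C : Set W} (hC : C.Countable) : ∃ b, ∀ a ∈ C, a < b := by
  by_contra h
  push Not at h
  apply not_countable
  have h1 : (univ : Set W) ⊆ ⋃ a ∈ C, Iic a := by
    intro b _
    obtain ⟨a, ha, hb⟩ := h b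
    exact mem_iUnion₂.2 ⟨a, ha, hb⟩
  exact countable_univ_iff.1 ((hC.biUnion fun a _ => countable_Iic a).mono h1)

theorem exists_gt_seq (f : ℕ → W) : ∃ b, ∀ n, f n < b := by
  obtain ⟨b, hb⟩ := exists_gt (countable_range f)
  exact ⟨b, fun n => hb _ ⟨n, rfl⟩⟩

instance : NoMaxOrder W := ⟨fun a => by
  obtain ⟨b, hb⟩ := exists_gt (countable_singleton a)
  exact ⟨b, hb a rfl⟩⟩

instance : Nonempty W := by
  by_contra h
  rw [not_nonempty_iff] at h
  exact not_countable inferInstance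

/-- `δ` is closed under `h`. -/
def Closed (h : List W → W) (δ : W) : Prop :=
  (∃ x, x < δ) ∧ ∀ l : List W, (∀ x ∈ l, x < δ) → h l < δ

theorem exists_closed (h : List W → W) (a : W) : ∃ δ, a < δ ∧ Closed h δ := by
  have h1 : ∀ b : W, ∃ c, b < c ∧ ∀ l : List W, (∀ x ∈ l, x ≤ b) → h l < c := by
    intro b
    have hc : {l : List W | ∀ x ∈ l, x ≤ b}.Countable := by
      have := (countable_Iic b).to_subtype
      have h2 : {l : List W | ∀ x ∈ l, x ≤ b} ⊆
          range (fun l : List (Iic b) => l.map Subtype.val) := by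
        intro l hl
        obtain ⟨l', hl'⟩ : ∃ l' : List (Iic b), l'.map Subtype.val = l := CanLift.prf l hl
        exact ⟨l', hl'⟩
      exact (countable_range _).mono h2
    obtain ⟨c, hc'⟩ := exists_gt ((hc.image h).insert b)
    exact ⟨c, hc' b (mem_insert _ _), fun l hl => hc' _ (mem_insert_of_mem _ ⟨l, hl, rfl⟩)⟩
  choose g hg1 hg2 using h1
  let d : ℕ → W := fun n => Nat.rec a (fun _ x => g x) n
  have hd0 : d 0 = a := rfl
  have hd1 : ∀ n, d (n + 1) = g (d n) := fun n => rfl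
  have hmono : StrictMono d := strictMono_nat_of_lt_succ fun n => by rw [hd1]; exact hg1 _
  have hne : {δ : W | ∀ n, d n < δ}.Nonempty := exists_gt_seq d
  obtain ⟨δ, hδ, hmin⟩ : ∃ δ, (∀ n, d n < δ) ∧ ∀ x, (∀ n, d n < x) → δ ≤ x := by
    refine ⟨wellFounded_lt.min _ hne, wellFounded_lt.min_mem _ hne, fun x hx => ?_⟩
    exact not_lt.1 (wellFounded_lt.not_lt_min {δ : W | ∀ n, d n < δ} hx)
  have hlt : ∀ x < δ, ∃ n, x ≤ d n := by
    intro x hx
    by_contra hcon
    push Not at hcon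
    exact absurd (hmin x hcon) (not_le.2 hx)
  refine ⟨δ, hd0 ▸ hδ 0, ⟨a, hd0 ▸ hδ 0⟩, ?_⟩
  intro l hl
  have h3 : ∃ n, ∀ x ∈ l, x ≤ d n := by
    induction l with
    | nil => exact ⟨0, by simp⟩
    | cons y l ih =>
      obtain ⟨n, hn⟩ := ih fun x hx => hl x (List.mem_cons_of_mem _ hx)
      obtain ⟨m, hm⟩ := hlt y (hl y List.mem_cons_self)
      refine ⟨max n m, fun x hx => ?_⟩
      rcases List.mem_cons.1 hx with rfl | hx
      · exact hm.trans (hmono.monotone (le_max_right _ _))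
      · exact (hn x hx).trans (hmono.monotone (le_max_left _ _))
  obtain ⟨n, hn⟩ := h3
  refine lt_trans (hg2 (d n) l hn) ?_
  exact hδ (n + 1)

/-- There is a stationary co-stationary set. -/
theorem exists_stationary : ∃ S : Set W, (∀ h : List W → W, ∃ δ ∈ S, Closed h δ) ∧
    ∀ h : List W → W, ∃ δ, δ ∉ S ∧ Closed h δ := by
  obtain ⟨r⟩ : Nonempty (W ↪ (ℕ → Bool)) := by
    rw [← Cardinal.le_def, mk_W]
    simpa using aleph_one_le_continuum
  by_contra hcon
  push Not at hcon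
  have h1 : ∀ n : ℕ, ∃ (h : List W → W) (b : Bool), ∀ δ, Closed h δ → r δ n = b := by
    intro n
    by_cases h2 : ∀ h : List W → W, ∃ δ ∈ {α : W | r α n = true}, Closed h δ
    · obtain ⟨h, hh⟩ := hcon _ h2
      refine ⟨h, true, fun δ hδ => ?_⟩
      by_contra hb
      exact hh δ hb hδ
    · push Not at h2
      obtain ⟨h, hh⟩ := h2
      refine ⟨h, false, fun δ hδ => ?_⟩
      by_contra hb
      exact hh δ (by simpa using hb) hδ
  choose h b hb using h1
  have h2 : ∀ l : List W, ∃ c, ∀ n, h n l < c := fun l => exists_gt_seq fun n => h n l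
  choose H hH using h2
  have h3 : ∀ δ, Closed H δ → r δ = b := by
    intro δ hδ
    funext n
    exact hb n δ ⟨hδ.1, fun l hl => (hH l n).trans (hδ.2 l hl)⟩
  obtain ⟨δ, -, h4⟩ := exists_closed H (Classical.arbitrary W)
  obtain ⟨δ', h5, h6⟩ := exists_closed H δ
  exact absurd (r.injective ((h3 δ h4).trans (h3 δ' h6).symm)) h5.ne

/-- A stationary co-stationary set. -/
noncomputable def S : Set W := Classical.choose exists_stationary

theorem S_stat (h : List W → W) : ∃ δ ∈ S, Closed h δ :=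
  (Classical.choose_spec exists_stationary).1 h

theorem S_costat (h : List W → W) : ∃ δ, δ ∉ S ∧ Closed h δ :=
  (Classical.choose_spec exists_stationary).2 h

theorem S_unbounded (a : W) : ∃ s ∈ S, a < s := by
  obtain ⟨δ, h1, h2⟩ := S_stat fun _ => a
  exact ⟨δ, h1, h2.2 [] (by simp)⟩

/-! ### The space -/

/-- `δ` is a limit point of the set with characteristic function `c`. -/
def LimPt (c : W → Bool) (δ : W) : Prop :=
  (∃ x, x < δ) ∧ ∀ x < δ, ∃ y, x < y ∧ y < δ ∧ c y = true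

/-- The characteristic functions of subsets of `S` such that each limit point either belongs
to the set, or lies outside of `S` and is above all elements of the set. -/
def Good (c : W → Bool) : Prop :=
  (∀ x, c x = true → x ∈ S) ∧
    ∀ δ, LimPt c δ → (δ ∈ S → c δ = true) ∧ (δ ∉ S → ∀ x, c x = true → x < δ)

/-- The points, ordered lexicographically. -/
def X : Type := {c : Lex (W → Bool) // Good (ofLex c)}

noncomputable instance : LinearOrder X := Subtype.instLinearOrder _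

/-- The characteristic function. -/
def ev (x : X) (η : W) : Bool := ofLex x.1 η

theorem good (x : X) : Good (ev x) := x.2

theorem ev_ext {x y : X} (h : ∀ η, ev x η = ev y η) : x = y :=
  Subtype.ext (funext h)

theorem lt_iff {x y : X} : x < y ↔ ∃ ξ, (∀ η < ξ, ev x η = ev y η) ∧ ev x ξ = false ∧
    ev y ξ = true := by
  have h : x < y ↔ ∃ ξ, (∀ η < ξ, ev x η = ev y η) ∧ ev x ξ < ev y ξ := Iff.rfl
  rw [h]
  simp only [Bool.lt_iff]

/-- a point from a function -/
def mkX (c : W → Bool) (hc : Good c) : X := ⟨toLex c, hc⟩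

@[simp] theorem ev_mkX (c : W → Bool) (hc : Good c) : ev (mkX c hc) = c := rfl

open Classical in
/-- The characteristic function of the supremum. -/
noncomputable def supFun (A : Set X) : W → Bool :=
  wellFounded_lt.fix (C := fun _ : W => Bool) fun ξ rec =>
    decide ((∃ a ∈ A, (∀ η, ∀ h : η < ξ, ev a η = rec η h) ∧ ev a ξ = true) ∨
      (ξ ∈ S ∧ (∃ x, x < ξ) ∧ ∀ x < ξ, ∃ y, x < y ∧ ∃ h : y < ξ, rec y h = true))

theorem supFun_iff (A : Set X) (ξ : W) : supFun A ξ = true ↔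
    (∃ a ∈ A, (∀ η < ξ, ev a η = supFun A η) ∧ ev a ξ = true) ∨
      (ξ ∈ S ∧ LimPt (supFun A) ξ) := by
  classical
  conv_lhs => rw [supFun, WellFounded.fix_eq]
  rw [decide_eq_true_iff]
  refine or_congr ?_ ?_
  · exact Iff.rfl
  · refine and_congr Iff.rfl (and_congr Iff.rfl ?_)
    constructor
    · intro h x hx
      obtain ⟨y, h1, h2, h3⟩ := h x hx
      exact ⟨y, h1, h2, h3⟩
    · intro h x hx
      obtain ⟨y, h1, h2, h3⟩ := h x hx
      exact ⟨y, h1, h2, h3⟩

theorem LimPt.congr {c c' : W → Bool} {δ : W} (h : LimPt c δ) (hc : ∀ η < δ, c η = c' η) :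
    LimPt c' δ := by
  refine ⟨h.1, fun x hx => ?_⟩
  obtain ⟨y, h1, h2, h3⟩ := h.2 x hx
  exact ⟨y, h1, h2, (hc y h2) ▸ h3⟩

theorem good_sup (A : Set X) : Good (supFun A) := by
  constructor
  · intro x hx
    rcases (supFun_iff A x).1 hx with ⟨a, -, -, ha⟩ | ⟨h, -⟩
    · exact (good a).1 x ha
    · exact h
  · intro δ hδ
    refine ⟨fun h => (supFun_iff A δ).2 (Or.inr ⟨h, hδ⟩), fun h => ?_⟩
    by_contra hcon
    have hne : {x : W | supFun A x = true ∧ ¬ x < δ}.Nonempty := by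
      push Not at hcon
      obtain ⟨x, hx1, hx2⟩ := hcon
      exact ⟨x, hx1, not_lt.2 hx2⟩
    obtain ⟨x, ⟨hx1, hx2⟩, hmin⟩ : ∃ x, (supFun A x = true ∧ ¬ x < δ) ∧
        ∀ y < x, ¬ (supFun A y = true ∧ ¬ y < δ) :=
      ⟨wellFounded_lt.min _ hne, wellFounded_lt.min_mem _ hne, fun y hy hy' =>
        wellFounded_lt.not_lt_min {x : W | supFun A x = true ∧ ¬ x < δ} hy' hy⟩
    have hδx : δ < x := by
      refine lt_of_le_of_ne (not_lt.1 hx2) ?_
      rintro rfl
      rcases (supFun_iff A δ).1 hx1 with ⟨a, -, -, ha⟩ | ⟨h', -⟩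
      · exact h ((good a).1 _ ha)
      · exact h h'
    rcases (supFun_iff A x).1 hx1 with ⟨a, haA, ha1, ha2⟩ | ⟨h', hlim⟩
    · have hlim : LimPt (ev a) δ := hδ.congr fun η hη => (ha1 η (hη.trans hδx)).symm
      exact hx2 (((good a).2 δ hlim).2 h x ha2)
    · obtain ⟨y, hy1, hy2, hy3⟩ := hlim.2 δ hδx
      exact hmin y hy2 ⟨hy3, not_lt.2 hy1.le⟩

theorem isLUB_sup (A : Set X) : IsLUB A (mkX (supFun A) (good_sup A)) := by
  constructor
  · intro a ha
    rw [← not_lt, lt_iff]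
    rintro ⟨ξ, h1, h2, h3⟩
    have : supFun A ξ = true := (supFun_iff A ξ).2 (Or.inl ⟨a, ha, fun η hη => (h1 η hη).symm, h3⟩)
    rw [ev_mkX, this] at h2
    exact absurd h2 (by simp)
  · intro b hb
    rw [← not_lt, lt_iff]
    rintro ⟨ξ, h1, h2, h3⟩
    rcases (supFun_iff A ξ).1 h3 with ⟨a, haA, ha1, ha2⟩ | ⟨h', hlim⟩
    · have : b < a := lt_iff.2 ⟨ξ, fun η hη => (h1 η hη).trans (ha1 η hη).symm, h2, ha2⟩
      exact absurd (hb haA) (not_le.2 this)
    · have hlim' : LimPt (ev b) ξ := hlim.congr fun η hη => (h1 η hη).symm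
      have := ((good b).2 ξ hlim').1 h'
      rw [this] at h2
      exact absurd h2 (by simp)

noncomputable instance : SupSet X := ⟨fun A => mkX (supFun A) (good_sup A)⟩

noncomputable instance instCL : CompleteLattice X where
  __ := (inferInstance : Lattice X)
  __ := completeLatticeOfSup X isLUB_sup

noncomputable instance instCLO : CompleteLinearOrder X where
  __ := (inferInstance : LinearOrder X)
  __ := instCL
  __ := LinearOrder.toBiheytingAlgebra X

/-- The order topology. -/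
noncomputable instance : TopologicalSpace X := Preorder.topology X

instance : OrderTopology X := ⟨rfl⟩

/-! ### Closed bounded sets -/

theorem bounded (x : X) : ∃ b, ∀ η, ev x η = true → η < b := by
  by_contra hcon
  push Not at hcon
  have h1 : ∀ l : List W, ∃ c, ev x c = true ∧ ∀ y ∈ l, y < c := by
    intro l
    obtain ⟨b, hb⟩ := exists_gt (l.finite_toSet.countable)
    obtain ⟨c, hc1, hc2⟩ := hcon b
    exact ⟨c, hc1, fun y hy => (hb y hy).trans_le hc2⟩
  choose h hh1 hh2 using h1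
  obtain ⟨δ, hδ, hc⟩ := S_costat h
  have hlim : LimPt (ev x) δ :=
    ⟨hc.1, fun y hy => ⟨h [y], hh2 [y] y (by simp), hc.2 [y] (by simpa using hy), hh1 _⟩⟩
  obtain ⟨c, hc1, hc2⟩ := hcon δ
  exact absurd (((good x).2 δ hlim).2 hδ c hc1) (not_lt.2 hc2)

/-- The set contains all its limit points. -/
def Cl (c : W → Bool) : Prop := ∀ δ, LimPt c δ → c δ = true

theorem good_of_cl {c : W → Bool} (h : ∀ x, c x = true → x ∈ S) (hc : Cl c) : Good c :=
  ⟨h, fun δ hδ => ⟨fun _ => hc δ hδ, fun h' => absurd (h δ (hc δ hδ)) h'⟩⟩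

theorem exists_add (x : X) (hx : Cl (ev x)) {s : W} (hs : s ∈ S)
    (hb : ∀ η, ev x η = true → η < s) :
    ∃ x' : X, Cl (ev x') ∧ (∀ η < s, ev x' η = ev x η) ∧ ev x' s = true ∧
      ∀ η, ev x' η = true → η ≤ s := by
  classical
  set c : W → Bool := fun η => decide (η = s ∨ ev x η = true) with hcdef
  have hc : ∀ η, c η = true ↔ η = s ∨ ev x η = true := fun η => by simp [hcdef]
  have hle : ∀ η, c η = true → η ≤ s := by
    intro η hη
    rcases (hc η).1 hη with rfl | h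
    · exact le_rfl
    · exact (hb η h).le
  have hlt : ∀ η < s, c η = ev x η := by
    intro η hη
    rw [Bool.eq_iff_iff, hc]
    exact or_iff_right hη.ne
  have hcl : Cl c := by
    intro δ hδ
    rcases le_or_gt δ s with h | h
    · rw [hc]
      right
      exact hx δ (hδ.congr fun η hη => hlt η (hη.trans_le h))
    · obtain ⟨y, hy1, hy2, hy3⟩ := hδ.2 s h
      exact absurd (hle y hy3) (not_le.2 hy1)
  have hg : Good c := by
    refine good_of_cl (fun η hη => ?_) hcl
    rcases (hc η).1 hη with rfl | h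
    · exact hs
    · exact (good x).1 η h
  refine ⟨mkX c hg, hcl, hlt, ?_, hle⟩
  rw [ev_mkX, hc]
  exact Or.inl rfl

/-- `t` is a closed set with largest element `β`. -/
def Cond (t : X) (β : W) : Prop := Cl (ev t) ∧ ev t β = true ∧ ∀ η, ev t η = true → η ≤ β

/-- The points which end-extend `t`, a set with maximum `β`. -/
def N (t : X) (β : W) : Set X := {c | ∀ η ≤ β, ev c η = ev t η}

theorem eq_false_of_lt {t : X} {s : W} (hb : ∀ η, ev t η = true → η < s) {η : W} (h : s ≤ η) :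
    ev t η = false := by
  by_contra hcon
  exact absurd (hb η (by simpa using hcon)) (not_lt.2 h)

theorem near {t t' c : X} {s : W} (_hb : ∀ η, ev t η = true → η < s)
    (h1 : ∀ η < s, ev t' η = ev t η) (h3 : ∀ η, ev t' η = true → η ≤ s)
    (hc : c ∈ Ioo t t') : ∀ η ≤ s, ev c η = ev t η := by
  obtain ⟨ξ, a1, a2, a3⟩ := lt_iff.1 hc.1
  obtain ⟨ζ, b1, b2, b3⟩ := lt_iff.1 hc.2
  have hζ := h3 ζ b3
  have hξ : s < ξ := by
    by_contra hcon
    push Not at hcon
    rcases lt_trichotomy ξ ζ with h | rfl | h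
    · have := b1 ξ h
      rw [h1 ξ (h.trans_le hζ), a2, a3] at this
      exact absurd this (by simp)
    · rw [a3] at b2
      exact absurd b2 (by simp)
    · have := a1 ζ h
      rw [b2, ← h1 ζ (h.trans_le hcon), b3] at this
      exact absurd this (by simp)
  intro η hη
  exact (a1 η (hη.trans_lt hξ)).symm

theorem lt_of {t c : X} {s : W} (hb : ∀ η, ev t η = true → η < s)
    (h1 : ∀ η < s, ev c η = ev t η) (h2 : ev c s = true) : t < c :=
  lt_iff.2 ⟨s, fun η hη => (h1 η hη).symm, eq_false_of_lt hb le_rfl, h2⟩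

theorem right {V : Set X} (hV : IsOpen V) {t : X} (ht : t ∈ V) (hcl : Cl (ev t)) :
    ∃ ξ, ∀ c, t ≤ c → (∀ η ≤ ξ, ev c η = ev t η) → c ∈ V := by
  obtain ⟨b, hb⟩ := bounded t
  obtain ⟨s, hs, hbs⟩ := S_unbounded b
  obtain ⟨u, -, hu1, hu2, -⟩ := exists_add t hcl hs fun η hη => (hb η hη).trans hbs
  have hlt : t < u := lt_of (fun η hη => (hb η hη).trans hbs) hu1 hu2
  obtain ⟨b', hb', hsub⟩ := exists_Ico_subset_of_mem_nhds (hV.mem_nhds ht) ⟨u, hlt⟩
  obtain ⟨ξ, a1, a2, a3⟩ := lt_iff.1 hb'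
  refine ⟨ξ, fun c hc hξ => hsub ⟨hc, lt_iff.2 ⟨ξ, fun η hη => ?_, ?_, a3⟩⟩⟩
  · rw [hξ η hη.le, a1 η hη]
  · rw [hξ ξ le_rfl, a2]

theorem exists_cl {V : Set X} (hV : IsOpen V) (hne : V.Nonempty) : ∃ t ∈ V, Cl (ev t) := by
  classical
  obtain ⟨x, hx⟩ := hne
  by_cases hcl : Cl (ev x)
  · exact ⟨x, hx, hcl⟩
  unfold Cl at hcl
  push Not at hcl
  obtain ⟨δ, hδ, hδx⟩ := hcl
  have hδS : δ ∉ S := fun h => hδx (((good x).2 δ hδ).1 h)
  have hxδ := ((good x).2 δ hδ).2 hδS
  -- truncations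
  have htr : ∀ η₀ : W, ev x η₀ = true → ∃ t : X, Cl (ev t) ∧ (∀ η ≤ η₀, ev t η = ev x η) ∧
      (∀ η, ev t η = true → η ≤ η₀) := by
    intro η₀ hη₀
    set c : W → Bool := fun η => decide (η ≤ η₀ ∧ ev x η = true) with hcdef
    have hc : ∀ η, c η = true ↔ η ≤ η₀ ∧ ev x η = true := fun η => by simp [hcdef]
    have hc2 : ∀ η ≤ η₀, c η = ev x η := by
      intro η hη
      rw [Bool.eq_iff_iff, hc]
      exact and_iff_right hη
    have hccl : Cl c := by
      intro ζ hζ
      have h1 : ζ ≤ η₀ := by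
        by_contra hcon
        obtain ⟨y, hy1, hy2, hy3⟩ := hζ.2 η₀ (not_le.1 hcon)
        exact absurd ((hc y).1 hy3).1 (not_le.2 hy1)
      have h2 : LimPt (ev x) ζ := hζ.congr fun η hη => hc2 η (hη.le.trans h1)
      rw [hc]
      refine ⟨h1, ?_⟩
      by_cases hS : ζ ∈ S
      · exact ((good x).2 ζ h2).1 hS
      · exact absurd (((good x).2 ζ h2).2 hS η₀ hη₀) (not_lt.2 h1)
    exact ⟨mkX c (good_of_cl (fun η hη => (good x).1 η ((hc η).1 hη).2) hccl), hccl, hc2,
      fun η hη => ((hc η).1 hη).1⟩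
  have hlt : ∀ (η₀ : W) (t : X), ev x η₀ = true → (∀ η ≤ η₀, ev t η = ev x η) →
      (∀ η, ev t η = true → η ≤ η₀) → t < x := by
    intro η₀ t h1 h2 h3
    have hne : {ζ : W | η₀ < ζ ∧ ev x ζ = true}.Nonempty := by
      obtain ⟨y, hy1, hy2, hy3⟩ := hδ.2 η₀ (hxδ η₀ h1)
      exact ⟨y, hy1, hy3⟩
    obtain ⟨ζ, ⟨hζ1, hζ2⟩, hmin⟩ : ∃ ζ, (η₀ < ζ ∧ ev x ζ = true) ∧
        ∀ y < ζ, ¬ (η₀ < y ∧ ev x y = true) :=
      ⟨wellFounded_lt.min _ hne, wellFounded_lt.min_mem _ hne, fun y hy hy' =>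
        wellFounded_lt.not_lt_min {ζ : W | η₀ < ζ ∧ ev x ζ = true} hy' hy⟩
    have hf : ∀ η, η₀ < η → ev t η = false := by
      intro η hη
      by_contra hcon
      exact absurd (h3 η (by simpa using hcon)) (not_le.2 hη)
    refine lt_iff.2 ⟨ζ, fun η hη => ?_, hf ζ hζ1, hζ2⟩
    rcases le_or_gt η η₀ with h | h
    · exact h2 η h
    · rw [hf η h]
      by_contra hcon
      refine hmin η hη ⟨h, ?_⟩
      cases hx' : ev x η
      · exact absurd hx'.symm hcon
      · rfl
  obtain ⟨z, hz⟩ := hδ.1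
  obtain ⟨η₁, hη₁, -, hη₁x⟩ := hδ.2 z hz
  obtain ⟨t₁, -, ht₁, ht₁'⟩ := htr η₁ hη₁x
  obtain ⟨a, ha, hsub⟩ := exists_Ioc_subset_of_mem_nhds (hV.mem_nhds hx)
    ⟨t₁, hlt η₁ t₁ hη₁x ht₁ ht₁'⟩
  obtain ⟨ξ, a1, a2, a3⟩ := lt_iff.1 ha
  obtain ⟨η₀, hη₀, -, hη₀x⟩ := hδ.2 ξ (hxδ ξ a3)
  obtain ⟨t, htcl, ht, ht'⟩ := htr η₀ hη₀x
  refine ⟨t, hsub ⟨lt_iff.2 ⟨ξ, fun η hη => ?_, a2, ?_⟩, (hlt η₀ t hη₀x ht ht').le⟩, htcl⟩
  · rw [a1 η hη, ht η (hη.trans hη₀).le]
  · rw [ht ξ hη₀.le, a3]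

theorem exists_open_subset_N {t : X} {β : W} (h : Cond t β) :
    ∃ V : Set X, IsOpen V ∧ V.Nonempty ∧ V ⊆ N t β := by
  obtain ⟨s, hs, hβs⟩ := S_unbounded β
  have hb : ∀ η, ev t η = true → η < s := fun η hη => (h.2.2 η hη).trans_lt hβs
  obtain ⟨u, -, hu1, hu2, hu3⟩ := exists_add t h.1 hs hb
  obtain ⟨s', hs', hss'⟩ := S_unbounded s
  obtain ⟨v, -, hv1, hv2, hv3⟩ := exists_add t h.1 hs' fun η hη => (hb η hη).trans hss'
  refine ⟨Ioo t u, isOpen_Ioo, ⟨v, lt_of (fun η hη => (hb η hη).trans hss') hv1 hv2, ?_⟩, ?_⟩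
  · refine lt_iff.2 ⟨s, fun η hη => ?_, ?_, hu2⟩
    · rw [hv1 η (hη.trans hss'), hu1 η hη]
    · rw [hv1 s hss']
      exact eq_false_of_lt hb le_rfl
  · intro c hc η hη
    exact near hb hu1 hu3 hc η (hη.trans hβs.le)

theorem ext_step {O : Set X} (hO : IsOpen O) {t : X} {β : W} (h : Cond t β) (γ : W) :
    ∃ (t' : X) (β' : W), Cond t' β' ∧ β < β' ∧ γ < β' ∧ (∀ η ≤ β, ev t' η = ev t η) ∧
      (N t' β' ⊆ O ∨ Disjoint (N t' β') O) := by
  obtain ⟨s, hs, hβs⟩ := S_unbounded β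
  have hb : ∀ η, ev t η = true → η < s := fun η hη => (h.2.2 η hη).trans_lt hβs
  obtain ⟨u, -, hu1, hu2, hu3⟩ := exists_add t h.1 hs hb
  by_cases hI : (O ∩ Ioo t u).Nonempty
  · obtain ⟨t₁, ht₁, hcl⟩ := exists_cl (hO.inter isOpen_Ioo) hI
    obtain ⟨ξ, hξ⟩ := right (hO.inter isOpen_Ioo) ht₁ hcl
    obtain ⟨b, hb'⟩ := bounded t₁
    obtain ⟨s₂, hs₂, hlt⟩ := S_unbounded (max (max ξ γ) (max b β))
    have h1 : ξ < s₂ := (le_trans (le_max_left _ _) (le_max_left _ _)).trans_lt hlt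
    have h2 : γ < s₂ := (le_trans (le_max_right _ _) (le_max_left _ _)).trans_lt hlt
    have h3 : b < s₂ := (le_trans (le_max_left _ _) (le_max_right _ _)).trans_lt hlt
    have h4 : β < s₂ := (le_trans (le_max_right _ _) (le_max_right _ _)).trans_lt hlt
    have hb2 : ∀ η, ev t₁ η = true → η < s₂ := fun η hη => (hb' η hη).trans h3
    obtain ⟨t', ht'cl, ht'1, ht'2, ht'3⟩ := exists_add t₁ hcl hs₂ hb2
    have hN : N t' s₂ ⊆ O ∩ Ioo t u := by
      intro c hc
      refine hξ c ?_ fun η hη => ?_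
      · refine (lt_of hb2 (fun η hη => ?_) ?_).le
        · rw [hc η hη.le, ht'1 η hη]
        · rw [hc s₂ le_rfl, ht'2]
      · rw [hc η (hη.trans h1.le), ht'1 η (hη.trans_lt h1)]
    refine ⟨t', s₂, ⟨ht'cl, ht'2, ht'3⟩, h4, h2, fun η hη => ?_, Or.inl fun c hc => (hN hc).1⟩
    exact near hb hu1 hu3 (hN fun η _ => rfl).2 η (hη.trans hβs.le)
  · obtain ⟨s', hs', hlt⟩ := S_unbounded (max s γ)
    have h1 : s < s' := (le_max_left _ _).trans_lt hlt
    have h2 : γ < s' := (le_max_right _ _).trans_lt hlt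
    have hb' : ∀ η, ev t η = true → η < s' := fun η hη => (hb η hη).trans h1
    obtain ⟨t', ht'cl, ht'1, ht'2, ht'3⟩ := exists_add t h.1 hs' hb'
    refine ⟨t', s', ⟨ht'cl, ht'2, ht'3⟩, hβs.trans h1, h2,
      fun η hη => ht'1 η (hη.trans_lt (hβs.trans h1)), Or.inr ?_⟩
    rw [Set.disjoint_left]
    intro c hc hcO
    refine hI ⟨c, hcO, lt_of hb' (fun η hη => ?_) ?_, lt_iff.2 ⟨s, fun η hη => ?_, ?_, hu2⟩⟩
    · rw [hc η hη.le, ht'1 η hη]
    · rw [hc s' le_rfl, ht'2]
    · rw [hc η (hη.trans h1).le, ht'1 η (hη.trans h1), hu1 η hη]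
    · rw [hc s h1.le, ht'1 s h1]
      exact eq_false_of_lt hb le_rfl

theorem exists_cond : ∃ (t : X) (β : W), Cond t β := by
  have hcl : Cl (fun _ : W => false) := by
    intro δ hδ
    obtain ⟨x, hx⟩ := hδ.1
    obtain ⟨y, -, -, hy⟩ := hδ.2 x hx
    exact absurd hy (by simp)
  obtain ⟨s, hs, -⟩ := S_unbounded (Classical.arbitrary W)
  obtain ⟨t, h1, -, h2, h3⟩ := exists_add (mkX (fun _ => false) (good_of_cl (by simp) hcl))
    hcl hs (by simp)
  exact ⟨t, s, h1, h2, h3⟩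

/-- For each sequence of open sets there is a nonempty open set which is contained in or
disjoint from each of them. -/
theorem fusion (O : ℕ → Set X) (hO : ∀ n, IsOpen (O n)) :
    ∃ V : Set X, IsOpen V ∧ V.Nonempty ∧ ∀ n, V ⊆ O n ∨ Disjoint V (O n) := by
  classical
  have hext : ∀ (p : {p : X × W // Cond p.1 p.2}) (n : ℕ) (γ : W),
      ∃ q : {p : X × W // Cond p.1 p.2}, p.1.2 < q.1.2 ∧ γ < q.1.2 ∧
        (∀ η ≤ p.1.2, ev q.1.1 η = ev p.1.1 η) ∧
        (N q.1.1 q.1.2 ⊆ O n ∨ Disjoint (N q.1.1 q.1.2) (O n)) := by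
    intro p n γ
    obtain ⟨t', β', h1, h2, h3, h4, h5⟩ := ext_step (hO n) p.2 γ
    exact ⟨⟨(t', β'), h1⟩, h2, h3, h4, h5⟩
  choose G hG1 hG2 hG3 hG4 using hext
  obtain ⟨t₀, β₀, h₀⟩ := exists_cond
  let st : List W → {p : X × W // Cond p.1 p.2} := fun l =>
    List.rec ⟨(t₀, β₀), h₀⟩ (fun γ l p => G p l.length γ) l
  have hst : ∀ γ l, st (γ :: l) = G (st l) l.length γ := fun γ l => rfl
  obtain ⟨δ, hδS, hδ⟩ := S_stat fun l => (st l).1.2
  obtain ⟨e, he⟩ := (countable_Iio δ).exists_eq_range hδ.1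
  have heδ : ∀ n, e n < δ := fun n => by
    have : e n ∈ Iio δ := by rw [he]; exact ⟨n, rfl⟩
    exact this
  let L : ℕ → List W := fun n => Nat.rec [] (fun n l => e n :: l) n
  have hL : ∀ n, L (n + 1) = e n :: L n := fun n => rfl
  have hLlen : ∀ n, (L n).length = n := by
    intro n
    induction n with
    | zero => rfl
    | succ n ih => rw [hL, List.length_cons, ih]
  have hLδ : ∀ n, ∀ x ∈ L n, x < δ := by
    intro n
    induction n with
    | zero => simp [L]
    | succ n ih =>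
      intro x hx
      rw [hL] at hx
      rcases List.mem_cons.1 hx with rfl | hx
      · exact heδ n
      · exact ih x hx
  let t : ℕ → X := fun n => (st (L n)).1.1
  let β : ℕ → W := fun n => (st (L n)).1.2
  have hcond : ∀ n, Cond (t n) (β n) := fun n => (st (L n)).2
  have hstep : ∀ n, st (L (n + 1)) = G (st (L n)) n (e n) := by
    intro n
    rw [hL, hst, hLlen]
  have hβδ : ∀ n, β n < δ := fun n => hδ.2 _ (hLδ n)
  have hβ1 : ∀ n, β n < β (n + 1) := by
    intro n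
    show (st (L n)).1.2 < (st (L (n + 1))).1.2
    rw [hstep]
    exact hG1 _ _ _
  have hβ2 : ∀ n, e n < β (n + 1) := by
    intro n
    show e n < (st (L (n + 1))).1.2
    rw [hstep]
    exact hG2 _ _ _
  have ht1 : ∀ n, ∀ η ≤ β n, ev (t (n + 1)) η = ev (t n) η := by
    intro n η hη
    show ev (st (L (n + 1))).1.1 η = ev (st (L n)).1.1 η
    rw [hstep]
    exact hG3 _ _ _ η hη
  have hdec : ∀ n, N (t (n + 1)) (β (n + 1)) ⊆ O n ∨ Disjoint (N (t (n + 1)) (β (n + 1))) (O n) := by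
    intro n
    show N (st (L (n + 1))).1.1 (st (L (n + 1))).1.2 ⊆ O n ∨
      Disjoint (N (st (L (n + 1))).1.1 (st (L (n + 1))).1.2) (O n)
    rw [hstep]
    exact hG4 _ _ _
  have hβm : StrictMono β := strictMono_nat_of_lt_succ hβ1
  have hcoh : ∀ m n, m ≤ n → ∀ η ≤ β m, ev (t n) η = ev (t m) η := by
    intro m n hmn
    induction n, hmn using Nat.le_induction with
    | base => exact fun η _ => rfl
    | succ n hmn ih =>
      intro η hη
      rw [ht1 n η (hη.trans (hβm.monotone hmn)), ih η hη]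
  have hcoh' : ∀ m n, ∀ η, η ≤ β m → η ≤ β n → ev (t n) η = ev (t m) η := by
    intro m n η h1 h2
    rcases le_total m n with h | h
    · exact hcoh m n h η h1
    · exact (hcoh n m h η h2).symm
  set c : W → Bool := fun η => decide (η = δ ∨ ∃ n, η ≤ β n ∧ ev (t n) η = true) with hcdef
  have hc : ∀ η, c η = true ↔ η = δ ∨ ∃ n, η ≤ β n ∧ ev (t n) η = true := fun η => by
    simp [hcdef]
  have hcn : ∀ n, ∀ η ≤ β n, c η = ev (t n) η := by
    intro n η hη
    rw [Bool.eq_iff_iff, hc]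
    constructor
    · rintro (rfl | ⟨m, h1, h2⟩)
      · exact absurd hη (not_le.2 (hβδ n))
      · rw [hcoh' m n η h1 hη]
        exact h2
    · exact fun h => Or.inr ⟨n, hη, h⟩
  have hcle : ∀ η, c η = true → η ≤ δ := by
    intro η hη
    rcases (hc η).1 hη with rfl | ⟨n, h1, -⟩
    · exact le_rfl
    · exact h1.trans (hβδ n).le
  have hcS : ∀ η, c η = true → η ∈ S := by
    intro η hη
    rcases (hc η).1 hη with rfl | ⟨n, -, h2⟩
    · exact hδS
    · exact (good (t n)).1 η h2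
  have hccl : Cl c := by
    intro x hx
    rcases lt_trichotomy x δ with h | rfl | h
    · obtain ⟨k, rfl⟩ : ∃ k, e k = x := by
        have : x ∈ Iio δ := h
        rw [he] at this
        exact this
      have h1 : e k ≤ β (k + 1) := (hβ2 k).le
      rw [hcn (k + 1) _ h1]
      exact (hcond (k + 1)).1 _ (hx.congr fun η hη => hcn (k + 1) η (hη.le.trans h1))
    · rw [hc]
      exact Or.inl rfl
    · obtain ⟨y, hy1, -, hy3⟩ := hx.2 δ h
      exact absurd (hcle y hy3) (not_le.2 hy1)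
  have hcondω : Cond (mkX c (good_of_cl hcS hccl)) δ := by
    refine ⟨hccl, ?_, hcle⟩
    rw [ev_mkX, hc]
    exact Or.inl rfl
  obtain ⟨V, hV1, hV2, hV3⟩ := exists_open_subset_N hcondω
  have hVn : ∀ n, V ⊆ N (t n) (β n) := by
    intro n x hx η hη
    rw [hV3 hx η (hη.trans (hβδ n).le), ev_mkX, hcn n η hη]
  refine ⟨V, hV1, hV2, fun n => ?_⟩
  rcases hdec n with h | h
  · exact Or.inl ((hVn (n + 1)).trans h)
  · exact Or.inr (h.mono_left (hVn (n + 1)))

theorem not_blumberg : ¬ Blumberg X := by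
  intro hB
  obtain ⟨r⟩ : Nonempty (W ↪ ℝ) := by
    rw [← Cardinal.le_def, mk_W, Cardinal.mk_real]
    exact aleph_one_le_continuum
  choose ρ hρ using bounded
  obtain ⟨D, hD, hf⟩ := hB fun x => r (ρ x)
  have h1 : ∀ q : ℚ × ℚ, ∃ O : Set X, IsOpen O ∧
      ∀ x ∈ D, x ∈ O ↔ r (ρ x) ∈ Ioo (q.1 : ℝ) q.2 := by
    intro q
    obtain ⟨O, hO, hO'⟩ := isOpen_induced_iff.1 ((isOpen_Ioo (a := (q.1 : ℝ)) (b := q.2)).preimage hf)
    refine ⟨O, hO, fun x hx => ?_⟩
    exact Set.ext_iff.1 hO' ⟨x, hx⟩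
  choose O hO hO' using h1
  obtain ⟨e, he⟩ := exists_surjective_nat (ℚ × ℚ)
  obtain ⟨V, hV1, hV2, hV3⟩ := fusion (fun n => O (e n)) fun n => hO _
  have hlt : ∀ d ∈ D, d ∈ V → ∀ d' ∈ D, d' ∈ V → ¬ r (ρ d) < r (ρ d') := by
    intro d hd hdV d' hd' hdV' hlt
    obtain ⟨q, hq1, hq2⟩ := exists_rat_btwn hlt
    obtain ⟨p, hp⟩ := exists_rat_lt (r (ρ d))
    obtain ⟨n, hn⟩ := he (p, q)
    have h2 : d ∈ O (e n) := by
      rw [hn, hO' _ d hd]
      exact ⟨hp, hq1⟩
    rcases hV3 n with h | h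
    · have h3 := h hdV'
      rw [hn, hO' _ d' hd'] at h3
      exact absurd h3.2 (not_lt.2 hq2.le)
    · exact Set.disjoint_left.1 h hdV h2
  obtain ⟨d₀, hd₀V, hd₀D⟩ := hD.inter_open_nonempty V hV1 hV2
  have heq : ∀ d ∈ D, d ∈ V → ρ d = ρ d₀ := by
    intro d hd hdV
    refine r.injective (le_antisymm ?_ ?_)
    · exact not_lt.1 (hlt d₀ hd₀D hd₀V d hd hdV)
    · exact not_lt.1 (hlt d hd hdV d₀ hd₀D hd₀V)
  obtain ⟨t, htV, htcl⟩ := exists_cl hV1 hV2
  obtain ⟨ξ, hξ⟩ := right hV1 htV htcl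
  obtain ⟨b, hb⟩ := bounded t
  obtain ⟨s, hs, hlt'⟩ := S_unbounded (max (max ξ (ρ d₀)) b)
  have h1 : ξ < s := (le_trans (le_max_left _ _) (le_max_left _ _)).trans_lt hlt'
  have h2 : ρ d₀ < s := (le_trans (le_max_right _ _) (le_max_left _ _)).trans_lt hlt'
  have h3 : b < s := (le_max_right _ _).trans_lt hlt'
  have hb' : ∀ η, ev t η = true → η < s := fun η hη => (hb η hη).trans h3
  obtain ⟨t', ht'cl, ht'1, ht'2, ht'3⟩ := exists_add t htcl hs hb'
  obtain ⟨V', hV'1, hV'2, hV'3⟩ := exists_open_subset_N (t := t') (β := s) ⟨ht'cl, ht'2, ht'3⟩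
  obtain ⟨d, hdV', hdD⟩ := hD.inter_open_nonempty V' hV'1 hV'2
  have hdN := hV'3 hdV'
  have hdV : d ∈ V := by
    refine hξ d (lt_of hb' (fun η hη => ?_) ?_).le fun η hη => ?_
    · rw [hdN η hη.le, ht'1 η hη]
    · rw [hdN s le_rfl, ht'2]
    · rw [hdN η (hη.trans h1.le), ht'1 η (hη.trans_lt h1)]
  have h4 : s < ρ d := hρ d s (by rw [hdN s le_rfl, ht'2])
  rw [heq d hdD hdV] at h4
  exact absurd h4 (not_lt.2 h2.le)

/-- There is (in ZFC) a compact linearly ordered topological space without the Blumberg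
property. -/
theorem result : ∃ (X : Type) (_ : LinearOrder X) (_ : TopologicalSpace X),
    OrderTopology X ∧ CompactSpace X ∧ ¬ Blumberg X :=
  ⟨X, inferInstance, inferInstance, inferInstance, inferInstance, not_blumberg⟩

end Pool.Agent.Results.MP_184855_gt.StationaryTree
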